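import Pool.Agent.V8H47.ALC.Main

/-!
# The polynomial hierarchy and the store contents at the alternations

Definitions: `Pool.Agent.V8H47.ALT.Defs` (alternating multihead pushdown automata, `Sig`,
`sigPDA`), `Pool.Agent.V8H47.MH.ContDefs` (`PolyGrowth`) and `Pool.Agent.V8H47.ALC.Defs`
(`AltContents`, `sigEmpty`, `sigAt`).

`sigPDA k α` is level `k` of the alternation hierarchy of two-way multihead pushdown automata that
work in polynomial time. By a theorem of Jenner and Kirsig, level `k + 1` is the level `Σ_k` of the
polynomial-time hierarchy, for `k ≥ 1` (this is not used below). We restrict the contents of the
pushdown store only at the alternations, that is in the configurations in which a step leads from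
an existential to a universal state or the other way round; between the alternations the store may
be used freely, also with auxiliary symbols.

Let `R` be a regular set of words which contains with a word all its prefixes, and the empty word.

* If the number of words of length `n` in `R` is polynomially bounded, then the automata whose store
  contents at the alternations are in `R` accept on each level exactly the languages of the automata
  whose store is empty at the alternations. (By the theorem of Borodin, Cook, Dymond, Ruzzo and
  Tompa all these levels are `LOGCFL`; this is not used below.)
* Otherwise they accept on each level all the languages of unrestricted automata.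

Idea. In the first case the simulating automaton describes the longest prefix of the store content
which is in `R` by finitely many polynomially bounded counters, kept by further heads, and only the
rest is in its store; so its store is empty at the alternations. In the second case any store can be
coded by words in `R`.
-/

namespace Pool.Agent.Results.MP_cf4427_lc.AlternationContents

open Pool.Agent.V8H47.MH Pool.Agent.V8H47.ALT Pool.Agent.V8H47.ALC

/-- The dichotomy for the store contents at the alternations. -/
theorem result {S : Type} [Finite S] (R : Language S) (hreg : R.IsRegular) (h0 : [] ∈ R)
    (hpre : ∀ u v, u ++ v ∈ R → u ∈ R) :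
    (PolyGrowth (R : Set (List S)) → ∀ (k : ℕ) (α : Type),
      sigAt (R : Set (List S)) k α = sigEmpty k α) ∧
    (¬ PolyGrowth (R : Set (List S)) →
      (∀ (k : ℕ) (α : Type), sigAt (R : Set (List S)) k α = sigPDA k α) ∧
      ∀ (α : Type) (k : ℕ),
        (∀ j, sigAt (R : Set (List S)) j α ⊆ sigAt (R : Set (List S)) k α) ↔
          (∀ j, sigPDA j α ⊆ sigPDA k α)) := by
  obtain ⟨h1, h2⟩ := at_dichotomy hreg h0 hpre
  refine ⟨h1, fun hp => ⟨h2 hp, fun α k => ?_⟩⟩
  simp only [h2 hp]

end Pool.Agent.Results.MP_cf4427_lc.AlternationContents
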