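import Pool.Agent.V8H57.BX.Norm

/-!
# The theories collapse to the bottom and `NP ≠ coNP`, relative to an oracle

`T^i_2 = T^(i+1)_2` implies `Σᵇ_(i+2) = Πᵇ_(i+2)` (Krajíček, Pudlák, Takeuti). Relative to the set
`A` of the theorem the theories collapse to the bottom, in the strongest sense: every structure
that satisfies the universal closures of the true `Σᵇ₁(A)`-formulas satisfies the universal
closures of all true bounded formulas (with `A`), and is a model of `T_2(A)`. Nevertheless
`Σᵇ₁(A) ≠ Πᵇ₁(A)`, so that no relativizing argument improves the conclusion to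
`Σᵇ_(i+1) = Πᵇ_(i+1)`. Every bounded formula is equivalent in `(ℕ, A)` to the disjunction of a
`Σᵇ₁(A)`-formula and a `Πᵇ₁(A)`-formula; so the hierarchy of the formulas collapses to
`Σᵇ₂(A) = Πᵇ₂(A)`, and not further.

`A` is composed of a very sparse set `S`, obtained by diagonalization, and of a set `K` which does
not depend on `S` and answers every question on the truth of a bounded formula in a world with a
known finite part of `S`, coded by numbers.
-/

set_option autoImplicit false

namespace Pool.Agent.Results.MP_cf4427_lc.BottomCollapse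

open Pool.Agent.TH686.BA Pool.Agent.V8H57.BX

theorem result : ∃ A : ℕ → Prop,
    (∃ θ : FR 1, Lv true 1 θ ∧ ∀ θ' : FR 1, Lv false 1 θ' →
      ¬ ∀ v : Fin 1 → ℕ, (θ.eval (natR A) v ↔ θ'.eval (natR A) v)) ∧
    (∀ (n : ℕ) (φ : FR n), ∃ σ π : FR n, Lv true 1 σ ∧ Lv false 1 π ∧
      ∀ v : Fin n → ℕ, (φ.eval (natR A) v ↔ (σ.eval (natR A) v ∨ π.eval (natR A) v))) ∧
    ∀ M : StrR, (∀ (n : ℕ) (θ : FR n), Lv true 1 θ → Tr A θ →
        ∀ v : Fin n → M.carrier, θ.eval M v) →
      (∀ (n : ℕ) (φ : FR n), Tr A φ → ∀ v : Fin n → M.carrier, φ.eval M v) ∧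
      ∀ i : ℕ, M.IsModelT i := by
  obtain ⟨S, hS, hreq⟩ := exists_hidden
  refine ⟨wld K S, ⟨hitF, lv_hitF, fun θ' hθ' h => ?_⟩,
    fun n φ => ⟨sg φ, pg φ, lv_sg φ, lv_pg φ, fun v => normal hS φ v⟩,
    fun M hM => ⟨fun n φ hφ v => all_true hM hS φ hφ v, fun i => modelM hM hS i⟩⟩
  obtain ⟨x, hx⟩ := hreq (.not θ') (.not hθ')
  apply hx
  have h1 : Hit S x ↔ θ'.eval (natR (wld K S)) (fun _ => x) :=
    (eval_hitF x).symm.trans (h fun _ => x)
  exact not_congr h1.symm

end Pool.Agent.Results.MP_cf4427_lc.BottomCollapse
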