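import Pool.Agent.V8H59.CF.N

/-!
# The formula classes collapse to the first level, the theories do not collapse to `T^1_2`

`T^i_2 = T^(i+1)_2` implies `Σᵇ_(i+2) = Πᵇ_(i+2)` (Krajíček, Pudlák, Takeuti), so a collapse of
the theories forces a collapse of the formula classes. Relative to the set `A` of the theorem the
converse fails for `i = 1` in a strong way: all bounded formulas are `Σᵇ₁(A)` and `Πᵇ₁(A)` in
`(ℕ, A)`, but `T^1_2(A)` together with all true universal closures of `Πᵇ₁(A)`-formulas does not
prove `T^2_2(A)`, not even a `Σᵇ₂(A)`-formula which `T^2_2(A)` proves (a strict linear order of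
the numbers up to `x` has a least element). On the other hand, the true universal closures of
`Σᵇ₁(A)`-formulas prove all true bounded formulas and all `T^i_2(A)`.

`A` consists of a visible part, linear orders of the numbers up to `x` for a sparse sequence of
numbers `x`, and of a hidden part, which contains for each true bounded statement one witness,
placed where the stages of the construction do not look. The model is a structure of germs of
functions produced by infinitely many instructions; each instruction replaces the present world by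
an admissible one (another order at `x`) in which as much as possible is true, and certifies it by
a small part of the world. So truth of `Σᵇ₁`-formulas in the model is truth at almost all stages,
which gives induction for them.
-/

set_option autoImplicit false

namespace Pool.Agent.Results.MP_cf4427_lc.CollapsedFormulas

open Pool.Agent.TH686.BA Pool.Agent.V8H57.BX Pool.Agent.V8H59.CF

theorem result : ∃ A : ℕ → Prop,
    (∀ (n : ℕ) (φ : FR n), ∃ σ π : FR n, Lv true 1 σ ∧ Lv false 1 π ∧
      ∀ v : Fin n → ℕ, (φ.eval (natR A) v ↔ σ.eval (natR A) v) ∧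
        (φ.eval (natR A) v ↔ π.eval (natR A) v)) ∧
    (∃ ψ : FR 1, Lv true 2 ψ ∧
      (∀ M : StrR, M.IsModelT 2 → ∀ v : Fin 1 → M.carrier, ψ.eval M v) ∧
      ∃ M : StrR, (∀ (n : ℕ) (θ : FR n), Lv false 1 θ → Tr A θ →
          ∀ v : Fin n → M.carrier, θ.eval M v) ∧
        M.IsModelT 1 ∧ ∃ v : Fin 1 → M.carrier, ¬ ψ.eval M v) ∧
    ∀ M : StrR, (∀ (n : ℕ) (θ : FR n), Lv true 1 θ → Tr A θ →
        ∀ v : Fin n → M.carrier, θ.eval M v) →
      (∀ (n : ℕ) (φ : FR n), Tr A φ → ∀ v : Fin n → M.carrier, φ.eval M v) ∧
      ∀ i : ℕ, M.IsModelT i := by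
  refine ⟨Wd Vf Wf, fun n φ => ⟨sgF φ, .not (sgF (.not φ)), lv_sgF φ, .not (lv_sgF _),
    fun v => ⟨sgF_iff Vf Wf Wf_le φ v, ?_⟩⟩,
    ⟨mini, lv_mini, mini_true, MS, fun n θ h ht v => true1 θ h ht v, modelMS, mini_false⟩,
    fun M hM => ⟨fun n φ h v => all_true Wf_le hM φ h v, fun i => model_all Wf_le hM i⟩⟩
  have h := sgF_iff Vf Wf Wf_le (.not φ) v
  show evF (Wd Vf Wf) φ v ↔ ¬ evF (Wd Vf Wf) (sgF (.not φ)) v
  rw [← h]
  exact not_not.symm

end Pool.Agent.Results.MP_cf4427_lc.CollapsedFormulas
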