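import Pool.Agent.V8H47.ALT.Main

/-!
# The alternation hierarchy of polynomial time multihead pushdown automata, and store contents

`sigPDA k α` is level `k` of the alternation hierarchy of two-way multihead pushdown automata that
work in polynomial time. (By a theorem of Jenner and Kirsig, level `k + 1` is the level `Σ_k` of
the polynomial-time hierarchy, for `k ≥ 1`; this is not used below.) `sigPDAIn R k α` is the same
for automata whose store contents always belong to the set of words `R`.
-/

namespace Pool.Agent.Results.MP_cf4427_lc.StoreContents

open Pool.Agent.V8H47.MH Pool.Agent.V8H47.ALT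

/-- **Theorem.** Let `R` be a regular set of words over a finite pushdown alphabet, with `[] ∈ R`.
If the number of words of length `n` all of whose prefixes are in `R` is polynomially bounded, then
on every level the automata with store contents in `R` are as powerful as multihead automata
without any store. Otherwise they are on every level as powerful as unrestricted pushdown automata
of the same level, so that their hierarchy collapses if and only if the unrestricted one does, and
to the same level. -/
theorem result {Γ : Type} [Finite Γ] (R : Language Γ) (hreg : R.IsRegular) (h0 : [] ∈ R) :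
    (PolyGrowth (R : Set (List Γ)) →
      ∀ (k : ℕ) (α : Type), sigPDAIn (R : Set (List Γ)) k α = sigFA k α) ∧
    (¬ PolyGrowth (R : Set (List Γ)) →
      (∀ (k : ℕ) (α : Type), sigPDAIn (R : Set (List Γ)) k α = sigPDA k α) ∧
      ∀ (α : Type) (k : ℕ),
        (∀ j, sigPDAIn (R : Set (List Γ)) j α ⊆ sigPDAIn (R : Set (List Γ)) k α) ↔
          (∀ j, sigPDA j α ⊆ sigPDA k α)) := by
  obtain ⟨h1, h2⟩ := alt_dichotomy hreg h0
  refine ⟨h1, fun hp => ⟨h2 hp, fun α k => ?_⟩⟩
  simp only [h2 hp]

end Pool.Agent.Results.MP_cf4427_lc.StoreContents
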